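import Pool.Agent.Helper19.CP.Spec

/-!
Part NO3: no parametrization over an extension of degree prime to three.
-/

set_option autoImplicit false

namespace Pool.Agent.Helper4.CP.NO3

open MvPolynomial Pool.Agent.Helper19.CP

theorem main (h : S_IX3) : S_NO3 := by
  intro n D F K'' G hF hK h3 hG hover
  have hev : ∀ (x : Fin (n + 1) → ℂ), (∀ j, ∃ a : ℕ, x j = a) → ∀ i, eval x (G i) = 0 := by
    intro x hx i
    have h1 := h (n + 2) F K'' hF hK h3 (fun i => eval x (G i)) (fun i => by
      show eval x (G i) ∈ K''
      rw [eval_eq']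
      refine sum_mem fun d _ => mul_mem (hover i d) (prod_mem fun j _ => pow_mem ?_ _)
      obtain ⟨a, ha⟩ := hx j
      rw [ha]
      exact natCast_mem K'' a) (by
      have h2 := congrArg (eval x) hG.zero
      rw [map_zero] at h2
      rw [← h2]
      show eval (fun i => eval x (G i)) F = eval x (aeval G F)
      have h3 : (eval fun i => eval x (G i) : MvPolynomial (Fin (n + 2)) ℂ →+* ℂ) =
          (eval x).comp (aeval G : MvPolynomial (Fin (n + 2)) ℂ →ₐ[ℂ] _).toRingHom := by
        apply MvPolynomial.ringHom_ext
        · intro r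
          simp
        · intro j
          simp
      exact congrArg (fun f : MvPolynomial (Fin (n + 2)) ℂ →+* ℂ => f F) h3)
    exact congrFun h1 i
  have hz : ∀ i, G i = 0 := by
    intro i
    refine MvPolynomial.funext_set (fun _ => Set.range fun a : ℕ => (a : ℂ))
      (fun _ => Set.infinite_range_of_injective Nat.cast_injective) fun x hx => ?_
    have h4 : ∀ j, ∃ a : ℕ, x j = a := fun j => by
      obtain ⟨a, ha⟩ := hx j (Set.mem_univ _)
      exact ⟨a, ha.symm⟩
    simpa using hev x h4 i
  have hne : F ≠ 0 := by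
    intro h0
    have h5 := hF.2.transcendental ⟨Finsupp.single 0 3, by simp [Finsupp.degree_single]⟩
    apply h5
    simp only [h0, coeff_zero]
    exact isAlgebraic_zero
  have h6 : F ∣ X 0 := hG.dom 1 (X 0) (isHomogeneous_X _ _) (by rw [aeval_X, hz])
  obtain ⟨q, hq⟩ := h6
  have hq0 : q ≠ 0 := by
    rintro rfl
    rw [mul_zero] at hq
    exact X_ne_zero _ hq
  have h7 := congrArg totalDegree hq
  rw [totalDegree_mul_of_isDomain hne hq0, totalDegree_X, hF.1.totalDegree hne] at h7
  omega

end Pool.Agent.Helper4.CP.NO3
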